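import Pool.Agent.H.MP_4002ad_an.A

set_option autoImplicit false

namespace Pool.Agent.H.MP_5691a6_an
open scoped ENNReal InnerProductSpace
open MeasureTheory Set Real FourierTransform Pool.Agent.H.MP_4002ad_an

noncomputable def q (x : ℝ) : ℝ := (Ioc (0 : ℝ) 1).indicator (fun _ => 1) x

theorem q_meas : Measurable q := measurable_const.indicator measurableSet_Ioc

noncomputable def al (x : ℝ) : ℝ := (q x + 7 * q (x - 1)) / 10

noncomputable def be (x : ℝ) : ℝ := (q (x - 1) - 7 * q x) / 10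

noncomputable def g (y : ℝ × ℝ) : ℝ := al y.1 * q y.2 + be y.1 * q (y.2 - 1)

theorem al_meas : Measurable al := by
  unfold al
  have := q_meas
  fun_prop

theorem be_meas : Measurable be := by
  unfold be
  have := q_meas
  fun_prop

theorem g_meas : Measurable g := by
  unfold g
  have := q_meas
  have := al_meas
  have := be_meas
  fun_prop

theorem cover (c : ℝ) (h : ℝ → ℝ≥0∞) : ∑' a : ℤ, ∫⁻ x in Ioc (a + c) (a + c + 1), h x = ∫⁻ x, h x := by
  rw [← lintegral_iUnion (fun _ => measurableSet_Ioc), eq_univ_of_forall (s := ⋃ _, _),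
    Measure.restrict_univ]
  · intro t
    refine mem_iUnion.mpr ⟨⌈t - c⌉ - 1, ?_, ?_⟩ <;> push_cast
    · linarith [Int.ceil_lt_add_one (t - c)]
    · linarith [Int.le_ceil (t - c)]
  · intro k k' hk
    refine disjoint_left.mpr fun t h1 h2 => hk ?_
    have a1 : (k : ℝ) < k' + 1 := by linarith [h1.1, h2.2]
    have a2 : (k' : ℝ) < k + 1 := by linarith [h1.2, h2.1]
    norm_cast at a1 a2
    omega

theorem q1 {x : ℝ} (h : 0 < x ∧ x ≤ 1) : q x = 1 := indicator_of_mem (s := Ioc 0 1) h _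

theorem q0 {x : ℝ} (h : x ≤ 0 ∨ 1 < x) : q x = 0 :=
  indicator_of_notMem (s := Ioc 0 1) (fun h1 => by rcases h with h | h <;> linarith [h1.1, h1.2]) _

theorem q_bd (x : ℝ) : 0 ≤ q x ∧ q x ≤ 1 := by
  unfold q indicator
  split_ifs <;> norm_num

theorem mix (u v : ℝ → ℂ) (mu : Measurable u) (mv : Measurable v) (hu : MemLp u 2 volume)
    (hv : MemLp v 2 volume) :
    ∑' a : ℤ, ∑' m : ℤ, ‖∫ x, (𝐞 (m * x / 2) : ℂ) * (al (x - a) * u x + be (x - a) * v x)‖ₑ ^ 2 =
      (∫⁻ x, ‖u x‖ₑ ^ 2) + ∫⁻ x, ‖v x‖ₑ ^ 2 := by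
  have h1 : ∀ a : ℤ, ∑' m : ℤ,
      ‖∫ x, (𝐞 (m * x / 2) : ℂ) * (al (x - a) * u x + be (x - a) * v x)‖ₑ ^ 2 =
      (∫⁻ x in Ioc (a + 0 : ℝ) (a + 0 + 1), ENNReal.ofReal (2 * ‖(u x - 7 * v x) / 10‖ ^ 2)) +
      ∫⁻ x in Ioc (a + 1 : ℝ) (a + 1 + 1), ENNReal.ofReal (2 * ‖(7 * u x + v x) / 10‖ ^ 2) := by
    intro a
    have b1 : ∀ (r : ℝ → ℝ) (w : ℝ → ℂ), Measurable r → (∀ x, |r x| ≤ 1) → MemLp w 2 volume →
        MemLp (fun x => (r (x - a) : ℂ) * w x) 2 volume := fun r w mr hr hw =>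
      hw.of_le ((Complex.measurable_ofReal.comp (mr.comp (measurable_sub_const _))
        ).aestronglyMeasurable.mul hw.1) (.of_forall fun x => by
          rw [norm_mul, Complex.norm_real]
          exact mul_le_of_le_one_left (norm_nonneg _) (hr _))
    have hF := (b1 al u al_meas (fun x => by
      rw [abs_le, al]; constructor <;> linarith [q_bd x, q_bd (x - 1)]) hu).add
      (b1 be v be_meas (fun x => by
        rw [abs_le, be]; constructor <;> linarith [q_bd x, q_bd (x - 1)]) hv)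
    have h2 := P1 a 2 two_pos (fun x => al (x - a) * u x + be (x - a) * v x) (hF.restrict _)
    have h3 : ∀ m : ℤ, ∫ x in Ioc (a : ℝ) (a + 2),
        (𝐞 (m * x / 2) : ℂ) * (al (x - a) * u x + be (x - a) * v x) =
        ∫ x, (𝐞 (m * x / 2) : ℂ) * (al (x - a) * u x + be (x - a) * v x) := fun m =>
      setIntegral_eq_integral_of_forall_compl_eq_zero fun x hx => by
        rw [mem_Ioc, not_and_or, not_lt, not_le] at hx
        have e1 : q (x - a) = 0 := q0 (by rcases hx with h | h; left; linarith; right; linarith)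
        have e2 : q (x - a - 1) = 0 := q0 (by rcases hx with h | h; left; linarith; right; linarith)
        simp [al, be, e1, e2]
    simp only [h3] at h2
    rw [h2, add_zero, add_assoc (a : ℝ) 1 1, one_add_one_eq_two,
      ← Ioc_union_Ioc_eq_Ioc (b := (a + 1 : ℝ)) (by linarith) (by linarith),
      lintegral_union measurableSet_Ioc (Ioc_disjoint_Ioc_of_le le_rfl), mul_add,
      ← lintegral_const_mul' _ _ ENNReal.ofReal_ne_top,
      ← lintegral_const_mul' _ _ ENNReal.ofReal_ne_top]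
    congr 1
    · refine setLIntegral_congr_fun measurableSet_Ioc fun x hx => ?_
      have e1 : q (x - a) = 1 := q1 ⟨by linarith [hx.1], by linarith [hx.2]⟩
      have e2 : q (x - a - 1) = 0 := q0 (Or.inl (by linarith [hx.2]))
      simp only [al, be, e1, e2]
      rw [esq, ← ENNReal.ofReal_mul zero_le_two]
      congr 4
      push_cast
      ring
    · refine setLIntegral_congr_fun measurableSet_Ioc fun x hx => ?_
      have e1 : q (x - a) = 0 := q0 (Or.inr (by linarith [hx.1]))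
      have e2 : q (x - a - 1) = 1 := q1 ⟨by linarith [hx.1], by linarith [hx.2]⟩
      simp only [al, be, e1, e2]
      rw [esq, ← ENNReal.ofReal_mul zero_le_two]
      congr 4
      push_cast
      ring
  simp only [h1]
  rw [ENNReal.tsum_add, cover, cover, ← lintegral_add_left (by fun_prop),
    ← lintegral_add_left (by fun_prop)]
  refine lintegral_congr fun x => ?_
  rw [esq, esq, ← ENNReal.ofReal_add (by positivity) (by positivity),
    ← ENNReal.ofReal_add (by positivity) (by positivity)]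
  congr 1
  simp only [Complex.sq_norm, Complex.normSq_apply, Complex.div_ofNat_re, Complex.div_ofNat_im,
    Complex.sub_re, Complex.sub_im, Complex.add_re, Complex.add_im, Complex.mul_re, Complex.mul_im,
    Complex.re_ofNat, Complex.im_ofNat]
  ring

noncomputable def K (a b m n : ℤ) (y : ℝ × ℝ) : ℂ :=
  (𝐞 (m * y.1 / 2) : ℂ) * (𝐞 (n * y.2 / 1) : ℂ) * (g (y.1 - a, y.2 - 2 * b) : ℝ)

theorem pars (F : ℝ × ℝ → ℂ) (hm : Measurable F) (hF : ∫⁻ y, ‖F y‖ₑ ^ 2 ≠ ⊤)
    (hi : ∀ a b m n, Integrable fun y => K a b m n y * F y) :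
    ∑' p : (ℤ × ℤ) × ℤ × ℤ, ‖∫ y, K p.2.1 p.1.2 p.2.2 p.1.1 y * F y‖ₑ ^ 2 = ∫⁻ y, ‖F y‖ₑ ^ 2 := by
  have m2 : Measurable fun y => ‖F y‖ₑ ^ 2 := hm.enorm.pow_const 2
  rw [Measure.volume_eq_prod, lintegral_prod _ m2.aemeasurable] at hF ⊢
  set c : ℤ × ℤ → ℝ → ℂ := fun p x =>
    ∫ y in Ioc (1 * p.2 : ℝ) (1 * p.2 + 1), (𝐞 (p.1 * y / 1) : ℂ) * F (x, y) with hc
  have mc : ∀ p, Measurable (c p) := fun p =>
    (StronglyMeasurable.integral_prod_right' (f := fun y : ℝ × ℝ => (𝐞 (p.1 * y.2 / 1) : ℂ) * F y)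
      ((Continuous.measurable (by fun_prop)).mul hm).stronglyMeasurable).measurable
  have h0 : ∀ᵐ x, MemLp (fun y => F (x, y)) 2 volume := by
    filter_upwards [ae_lt_top m2.lintegral_prod_right' hF] with s hs
    exact mem2 (hm.comp measurable_prodMk_left).aestronglyMeasurable hs.ne
  have h1 : ∑' p, ∫⁻ x, ‖c p x‖ₑ ^ 2 = ∫⁻ x, ∫⁻ y, ‖F (x, y)‖ₑ ^ 2 := by
    rw [← lintegral_tsum fun p => ((mc p).enorm.pow_const 2).aemeasurable]
    refine lintegral_congr_ae ?_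
    filter_upwards [h0] with s hs
    rw [P2 1 one_pos _ hs, ENNReal.ofReal_one, one_mul]
  have h2 : ∀ p, MemLp (c p) 2 volume := fun p => mem2 (mc p).aestronglyMeasurable
    (ne_top_of_le_ne_top hF (h1 ▸ ENNReal.le_tsum p))
  have h4 : ∀ a b m n : ℤ, ∫ y, K a b m n y * F y ∂(volume.prod volume) =
      ∫ x, (𝐞 (m * x / 2) : ℂ) * (al (x - a) * c (n, 2 * b) x + be (x - a) * c (n, 2 * b + 1) x) := by
    intro a b m n
    rw [integral_prod _ (hi _ _ _ _)]
    refine integral_congr_ae ?_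
    filter_upwards [h0] with x hx
    have i1 : ∀ k : ℤ, Integrable ((Ioc (1 * k : ℝ) (1 * k + 1)).indicator
        fun y => (𝐞 (n * y / 1) : ℂ) * F (x, y)) := fun k => by
      rw [integrable_indicator_iff measurableSet_Ioc]
      exact ((hx.restrict _).integrable one_le_two).bdd_mul (c := 1)
        (Continuous.aestronglyMeasurable (by fun_prop)) (.of_forall fun y => (Circle.norm_coe _).le)
    simp only [hc, ← integral_indicator measurableSet_Ioc, ← integral_const_mul]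
    rw [← integral_add ((i1 _).const_mul _) ((i1 _).const_mul _), ← integral_const_mul]
    refine integral_congr_ae (.of_forall fun y => ?_)
    have e : ∀ (k : ℤ) (z : ℝ), z = y - k → (Ioc (1 * k : ℝ) (1 * k + 1)).indicator
        (fun y => (𝐞 (n * y / 1) : ℂ) * F (x, y)) y = q z * ((𝐞 (n * y / 1) : ℂ) * F (x, y)) := by
      rintro k z rfl
      by_cases h : y ∈ Ioc (1 * k : ℝ) (1 * k + 1)
      · rw [indicator_of_mem h, q1 ⟨by linarith [h.1], by linarith [h.2]⟩]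
        simp
      · rw [indicator_of_notMem h, q0]
        · simp
        · rw [mem_Ioc, not_and_or, not_lt, not_le] at h
          rcases h with h | h
          · left; linarith
          · right; linarith
    simp only [K, g]
    rw [e _ (y - 2 * b) (by push_cast; ring), e _ (y - 2 * b - 1) (by push_cast; ring)]
    push_cast
    ring
  rw [← h1, ENNReal.tsum_prod', ENNReal.tsum_prod', ENNReal.tsum_prod']
  refine tsum_congr fun n => ?_
  simp only [h4]
  rw [← (Int.divModEquiv 2).symm.tsum_eq fun b => ∫⁻ x, ‖c (n, b) x‖ₑ ^ 2, ENNReal.tsum_prod']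
  refine tsum_congr fun b => ?_
  rw [ENNReal.tsum_prod', mix _ _ (mc _) (mc _) (h2 _) (h2 _), tsum_fintype, Fin.sum_univ_two]
  simp [Int.divModEquiv, mul_comm]

theorem g_one : ∫⁻ y, ‖((g y : ℝ) : ℂ)‖ₑ ^ 2 = 1 := by
  have : ∀ y, ‖((g y : ℝ) : ℂ)‖ₑ ^ 2 =
      (Ioc (0 : ℝ) 1 ×ˢ Ioc (0 : ℝ) 1).indicator (fun _ => ENNReal.ofReal (1 / 100)) y +
      (Ioc (1 : ℝ) 2 ×ˢ Ioc (0 : ℝ) 1).indicator (fun _ => ENNReal.ofReal (49 / 100)) y +
      (Ioc (0 : ℝ) 1 ×ˢ Ioc (1 : ℝ) 2).indicator (fun _ => ENNReal.ofReal (49 / 100)) y +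
      (Ioc (1 : ℝ) 2 ×ˢ Ioc (1 : ℝ) 2).indicator (fun _ => ENNReal.ofReal (1 / 100)) y := by
    rintro ⟨x, y⟩
    rw [esq, Complex.norm_real, Real.norm_eq_abs, sq_abs]
    simp only [g, al, be, q, indicator, mem_prod, mem_Ioc]
    split_ifs <;> first | (exfalso; grind) | norm_num
  simp only [this]
  have m : ∀ (a b c d : ℝ) (r : ℝ≥0∞), Measurable ((Ioc a b ×ˢ Ioc c d).indicator fun _ => r) :=
    fun a b c d r => measurable_const.indicator (measurableSet_Ioc.prod measurableSet_Ioc)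
  rw [lintegral_add_right _ (m ..), lintegral_add_right _ (m ..), lintegral_add_right _ (m ..)]
  simp only [lintegral_indicator_const (measurableSet_Ioc.prod measurableSet_Ioc),
    Measure.volume_eq_prod, Measure.prod_prod, Real.volume_Ioc]
  norm_num
  rw [← ENNReal.ofReal_add, ← ENNReal.ofReal_add, ← ENNReal.ofReal_add] <;> norm_num

abbrev E := EuclideanSpace ℝ (Fin 2)

noncomputable def pr (x : E) : ℝ × ℝ := (x 0, x 1)

theorem pr_mp : MeasurePreserving pr volume volume :=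
  (volume_preserving_finTwoArrow ℝ).comp (PiLp.volume_preserving_ofLp (Fin 2))

theorem pr_emb : MeasurableEmbedding pr :=
  ((MeasurableEquiv.toLp 2 (Fin 2 → ℝ)).symm.trans MeasurableEquiv.finTwoArrow).measurableEmbedding

noncomputable def gg (x : E) : ℂ := g (pr x)

theorem gg_meas : Measurable gg := Complex.measurable_ofReal.comp (g_meas.comp pr_mp.measurable)

theorem gg_one : ∫⁻ x, ‖gg x‖ₑ ^ 2 = 1 :=
  (pr_mp.lintegral_comp_emb pr_emb fun y => ‖((g y : ℝ) : ℂ)‖ₑ ^ 2).trans g_one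

noncomputable def tt (p : ℤ × ℤ) : E := !₂[p.1, 2 * p.2]

noncomputable def ss (p : ℤ × ℤ) : E := !₂[p.1 / 2, p.2]

noncomputable def w (t s x : E) : ℂ :=
  gg (x - t) * Complex.exp (2 * π * Complex.I * ((inner ℝ s x : ℝ) : ℂ))

theorem w_en (t s x : E) : ‖w t s x‖ₑ = ‖gg (x - t)‖ₑ := by
  rw [← ofReal_norm, ← ofReal_norm, w, norm_mul, Complex.norm_exp]
  simp

theorem w_one (t s : E) : ∫⁻ x, ‖w t s x‖ₑ ^ 2 = 1 := by
  simp only [w_en]
  rw [lintegral_sub_right_eq_self (fun x => ‖gg x‖ₑ ^ 2), gg_one]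

theorem w_mem (t s : E) : MemLp (w t s) 2 volume :=
  mem2 ((gg_meas.comp (measurable_sub_const t)).mul
    (Continuous.measurable (by fun_prop))).aestronglyMeasurable (by rw [w_one]; simp)

theorem w_K (a b m n : ℤ) (x : E) :
    (starRingEnd ℂ) (w (tt (a, b)) (ss (m, n)) x) = K a b (-m) (-n) (pr x) := by
  simp only [w, gg, K, pr, tt, ss, map_mul, Complex.conj_ofReal, ← Complex.exp_conj,
    Complex.conj_I, map_ofNat, Real.fourierChar_apply, ← Complex.exp_add, PiLp.sub_apply,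
    PiLp.inner_apply, Fin.sum_univ_two, Matrix.cons_val_zero, Matrix.cons_val_one,
    RCLike.inner_apply, conj_trivial]
  rw [mul_comm]
  congr 2
  push_cast
  ring

theorem w_inn (t s : E) (f : Lp ℂ 2 (volume : Measure E)) :
    ⟪(w_mem t s).toLp _, f⟫_ℂ = ∫ x, f x * (starRingEnd ℂ) (w t s x) := by
  rw [L2.inner_def]
  refine integral_congr_ae ?_
  filter_upwards [(w_mem t s).coeFn_toLp] with x hx
  rw [hx, RCLike.inner_apply]

theorem basis : ∃ b : HilbertBasis ((ℤ × ℤ) × ℤ × ℤ) ℂ (Lp ℂ 2 (volume : Measure E)),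
    ∀ i, b i = (w_mem (tt i.1) (ss i.2)).toLp _ := by
  refine onb _ (fun i => ?_) fun f => ?_
  · have : eLpNorm (w (tt i.1) (ss i.2)) 2 volume = 1 :=
      (ENNReal.pow_right_strictMono two_ne_zero).injective (by simp only [el, w_one, one_pow])
    rw [Lp.norm_toLp, this, ENNReal.toReal_one]
  obtain ⟨F, mF, hF⟩ : ∃ F : ℝ × ℝ → ℂ, Measurable F ∧ ∀ x, F (pr x) = f x :=
    ⟨fun y => f (WithLp.toLp 2 ![y.1, y.2]),
      (Lp.stronglyMeasurable _).measurable.comp (Continuous.measurable (by fun_prop)),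
      fun x => congrArg _ (by ext i; fin_cases i <;> rfl)⟩
  have n1 : ∫⁻ y, ‖F y‖ₑ ^ 2 = ‖f‖ₑ ^ 2 := by
    rw [← pr_mp.lintegral_comp_emb pr_emb, Lp.enorm_def, el]
    simp only [hF]
  have e2 : ∀ i : (ℤ × ℤ) × ℤ × ℤ, ⟪(w_mem (tt i.1) (ss i.2)).toLp _, f⟫_ℂ =
      ∫ y, K i.1.1 i.1.2 (-i.2.1) (-i.2.2) y * F y := fun i => by
    rw [w_inn, ← pr_mp.integral_comp pr_emb]
    simp only [w_K i.1.1 i.1.2 i.2.1 i.2.2, hF, mul_comm]
  rw [← n1, ← pars F mF (by rw [n1]; simp) fun a b m n => ?_]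
  · simp only [e2]
    exact (⟨fun i => ((-i.2.2, i.1.2), i.1.1, -i.2.1), fun p => ((p.2.1, p.1.2), -p.2.2, -p.1.1),
      fun i => by simp, fun p => by simp⟩ : (ℤ × ℤ) × ℤ × ℤ ≃ (ℤ × ℤ) × ℤ × ℤ).tsum_eq
      fun p => ‖∫ y, K p.2.1 p.1.2 p.2.2 p.1.1 y * F y‖ₑ ^ 2
  · refine (pr_mp.integrable_comp_emb pr_emb).mp ((L2.integrable_inner (𝕜 := ℂ)
      ((w_mem (tt (a, b)) (ss (-m, -n))).toLp _) f).congr ?_)
    filter_upwards [(w_mem (tt (a, b)) (ss (-m, -n))).coeFn_toLp] with x hx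
    rw [hx, RCLike.inner_apply, w_K, neg_neg, neg_neg, Function.comp_apply, hF, mul_comm]

theorem ww (t s t' s' : E) : ∫ x, w t s x * (starRingEnd ℂ) (w t' s' x) =
    ⟪(w_mem t' s').toLp _, (w_mem t s).toLp _⟫_ℂ := by
  rw [w_inn]
  refine integral_congr_ae ?_
  filter_upwards [(w_mem t s).coeFn_toLp] with x hx
  rw [hx]

theorem supp : HasCompactSupport gg := by
  refine HasCompactSupport.intro (isCompact_closedBall 0 3) fun x hx => ?_
  by_contra h
  apply hx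
  rw [mem_closedBall_zero_iff, EuclideanSpace.norm_eq, Real.sqrt_le_iff]
  have h1 : g (pr x) ≠ 0 := fun h0 => h (by simp [gg, h0])
  simp only [g, al, be, q, indicator, mem_Ioc, pr] at h1
  simp only [Fin.sum_univ_two, Real.norm_eq_abs, sq_abs]
  refine ⟨by norm_num, ?_⟩
  have : 0 < x 0 ∧ x 0 ≤ 2 ∧ 0 < x 1 ∧ x 1 ≤ 2 := by
    split_ifs at h1 <;> grind
  nlinarith [this.1, this.2.1, this.2.2.1, this.2.2.2]

theorem pt (c : ℝ) {P : E → Prop} (h : ∀ᵐ x, P x) :
    ∃ x : E, P x ∧ c < x 0 ∧ x 0 ≤ c + 1 ∧ 0 < x 1 ∧ x 1 ≤ 1 := by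
  have h1 : volume (pr ⁻¹' (Ioc c (c + 1) ×ˢ Ioc 0 1)) ≠ 0 := by
    rw [pr_mp.measure_preimage (measurableSet_Ioc.prod measurableSet_Ioc).nullMeasurableSet,
      Measure.volume_eq_prod, Measure.prod_prod]
    simp
  obtain ⟨x, h2, h3⟩ := Measure.exists_mem_of_measure_ne_zero_of_ae h1 (ae_restrict_of_ae h)
  exact ⟨x, h3, h2.1.1, h2.1.2, h2.2.1, h2.2.2⟩

theorem nconst (κ : ℝ) (Ω : Set E) :
    ¬ ∀ᵐ x, ‖gg x‖ = κ * Ω.indicator (fun _ => (1 : ℝ)) x := by
  intro h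
  obtain ⟨x, h1, a1, a2, a3, a4⟩ := pt 0 h
  obtain ⟨y, h2, b1, b2, b3, b4⟩ := pt 1 h
  have e1 : ‖gg x‖ = 1 / 10 := by
    simp only [gg, g, al, be, pr]
    rw [q1 ⟨a1, by linarith⟩, q1 ⟨a3, a4⟩, q0 (Or.inl (by linarith)), q0 (Or.inl (by linarith))]
    norm_num
  have e2 : ‖gg y‖ = 7 / 10 := by
    simp only [gg, g, al, be, pr]
    rw [q0 (x := y 0) (Or.inr b1), q1 ⟨b3, b4⟩, q1 ⟨by linarith, by linarith⟩,
      q0 (Or.inl (by linarith))]
    norm_num
  rw [e1, indicator] at h1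
  rw [e2, indicator] at h2
  split_ifs at h1 h2 <;> linarith

end Pool.Agent.H.MP_5691a6_an
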